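import Mathlib

/-!
# The weighted Bezout inequality for nondegenerate zeros
-/

set_option autoImplicit false

open Finset

namespace Pool.Agent.L5helper18.DC

section count

variable {ι : Type} [Fintype ι] [DecidableEq ι]

/-- the exponents of weighted degree at most `D` -/
def Sw (w : ι → ℕ) (D : ℕ) : Finset (ι → ℕ) :=
  (Fintype.piFinset fun _ => range (D + 1)).filter fun a => ∑ i, a i * w i ≤ D

lemma mem_Sw {w : ι → ℕ} (hw : ∀ i, 1 ≤ w i) {D : ℕ} {a : ι → ℕ} :
    a ∈ Sw w D ↔ ∑ i, a i * w i ≤ D := by
  rw [Sw, mem_filter, Fintype.mem_piFinset]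
  refine ⟨fun h => h.2, fun h => ⟨fun i => ?_, h⟩⟩
  rw [mem_range]
  have h1 : a i * w i ≤ ∑ i, a i * w i :=
    single_le_sum (f := fun i => a i * w i) (fun _ _ => Nat.zero_le _) (mem_univ i)
  have h2 : a i * 1 ≤ a i * w i := Nat.mul_le_mul_left _ (hw i)
  omega

lemma div_mod_unique {a s a' s' w : ℕ} (hs : s < w) (hs' : s' < w)
    (h : a * w + s = a' * w + s') : a = a' ∧ s = s' := by
  have h1 : a = a' := by
    rcases lt_trichotomy a a' with h2 | h2 | h2
    · have : (a + 1) * w ≤ a' * w := Nat.mul_le_mul_right _ h2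
      rw [add_mul, one_mul] at this
      omega
    · exact h2
    · have : (a' + 1) * w ≤ a * w := Nat.mul_le_mul_right _ h2
      rw [add_mul, one_mul] at this
      omega
  subst h1
  exact ⟨rfl, by omega⟩

lemma Sw_upper {w : ι → ℕ} (hw : ∀ i, 1 ≤ w i) (D : ℕ) :
    (Sw w D).card * ∏ i, w i ≤ (Sw (fun _ : ι => 1) (D + ∑ i, w i)).card := by
  have h1 : (Sw w D ×ˢ Fintype.piFinset fun i => range (w i)).card =
      (Sw w D).card * ∏ i, w i := by
    rw [card_product, Fintype.card_piFinset]
    simp only [card_range]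
  rw [← h1]
  refine card_le_card_of_injOn (fun p => fun i => p.1 i * w i + p.2 i) ?_ ?_
  · rintro ⟨a, s⟩ h
    rw [mem_coe, mem_product, mem_Sw hw, Fintype.mem_piFinset] at h
    rw [mem_coe, mem_Sw (fun _ => le_rfl)]
    simp only [mul_one, sum_add_distrib]
    refine add_le_add h.1 (sum_le_sum fun i _ => ?_)
    exact (mem_range.1 (h.2 i)).le
  · rintro ⟨a, s⟩ h ⟨a', s'⟩ h' heq
    rw [mem_coe, mem_product, Fintype.mem_piFinset] at h h'
    have h2 : ∀ i, a i = a' i ∧ s i = s' i := fun i =>
      div_mod_unique (mem_range.1 (h.2 i)) (mem_range.1 (h'.2 i)) (congrFun heq i)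
    rw [Prod.mk.injEq]
    exact ⟨funext fun i => (h2 i).1, funext fun i => (h2 i).2⟩

lemma Sw_lower {d : ι → ℕ} (hd : ∀ i, 1 ≤ d i) (D : ℕ) :
    (Sw (fun _ : ι => 1) D).card ≤ (Sw d D).card * ∏ i, d i := by
  have h1 : (Sw d D ×ˢ Fintype.piFinset fun i => range (d i)).card =
      (Sw d D).card * ∏ i, d i := by
    rw [card_product, Fintype.card_piFinset]
    simp only [card_range]
  rw [← h1]
  refine card_le_card_of_injOn (fun b => (fun i => b i / d i, fun i => b i % d i)) ?_ ?_
  · intro b h
    rw [mem_coe, mem_Sw (fun _ => le_rfl)] at h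
    simp only [mul_one] at h
    rw [mem_coe, mem_product, mem_Sw hd, Fintype.mem_piFinset]
    refine ⟨le_trans (sum_le_sum fun i _ => Nat.div_mul_le_self _ _) h, fun i => ?_⟩
    exact mem_range.2 (Nat.mod_lt _ (hd i))
  · intro b _ b' _ heq
    simp only [Prod.mk.injEq] at heq
    funext i
    have h2 := congrFun heq.1 i
    have h3 := congrFun heq.2 i
    rw [← Nat.div_add_mod (b i) (d i), h2, h3, Nat.div_add_mod]

lemma Sw_transport {κ : Type} [Fintype κ] [DecidableEq κ] (e : κ ≃ ι) (D : ℕ) :
    (Sw (fun _ : ι => 1) D).card ≤ (Sw (fun _ : κ => 1) D).card := by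
  refine card_le_card_of_injOn (fun a => fun k => a (e k)) ?_ ?_
  · intro a h
    rw [mem_coe, mem_Sw (fun _ => le_rfl)] at h ⊢
    simpa only [mul_one, Equiv.sum_comp e a] using h
  · intro a _ b _ h
    funext i
    have := congrFun h (e.symm i)
    simpa using this

lemma Sw_le (D : ℕ) : (Sw (fun _ : ι => 1) D).card ≤ (D + 1) ^ Fintype.card ι := by
  refine (card_filter_le _ _).trans ?_
  rw [Fintype.card_piFinset]
  simp

lemma Sw_zero : 1 ≤ (Sw (fun _ : ι => 1) 0).card := by
  rw [Nat.succ_le_iff, card_pos]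
  exact ⟨0, (mem_Sw fun _ => le_rfl).2 (by simp)⟩

end count

lemma growth {N : ℕ → ℕ} {q Q c M : ℕ} (h0 : 1 ≤ N 0) (hN : ∀ D, N D ≤ (D + 1) ^ M)
    (h : ∀ D, q * N D ≤ Q * N (D + c)) : q ≤ Q := by
  by_contra hcon
  push Not at hcon
  have key : ∀ k, q ^ k ≤ Q ^ k * N (c * k) := by
    intro k
    induction k with
    | zero => simpa using h0
    | succ k ih =>
      calc q ^ (k + 1) = q * q ^ k := by ring
        _ ≤ q * (Q ^ k * N (c * k)) := Nat.mul_le_mul_left _ ih
        _ = Q ^ k * (q * N (c * k)) := by ring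
        _ ≤ Q ^ k * (Q * N (c * k + c)) := Nat.mul_le_mul_left _ (h _)
        _ = Q ^ (k + 1) * N (c * (k + 1)) := by rw [mul_add, mul_one]; ring
  rcases Nat.eq_zero_or_pos Q with rfl | hQ
  · have := key 1
    simp at this
    omega
  have hQR : (0 : ℝ) < Q := by exact_mod_cast hQ
  set r : ℝ := q / Q with hr
  have hr1 : 1 < r := by
    rw [hr, one_lt_div hQR]
    exact_mod_cast hcon
  have key2 : ∀ k : ℕ, 1 ≤ k → r ^ k ≤ ((c : ℝ) + 1) ^ M * (k : ℝ) ^ M := by
    intro k hk
    have h1 : ((q : ℝ)) ^ k ≤ (Q : ℝ) ^ k * ((c * k + 1 : ℕ) : ℝ) ^ M := by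
      have : q ^ k ≤ Q ^ k * (c * k + 1) ^ M := (key k).trans (Nat.mul_le_mul_left _ (hN _))
      exact_mod_cast this
    rw [hr, div_pow, div_le_iff₀ (by positivity)]
    refine h1.trans ?_
    rw [mul_comm, ← mul_pow]
    refine mul_le_mul_of_nonneg_right ?_ (by positivity)
    refine pow_le_pow_left₀ (by positivity) ?_ _
    have hk' : (1 : ℝ) ≤ k := by exact_mod_cast hk
    push_cast
    nlinarith
  have hlim := tendsto_pow_const_div_const_pow_of_one_lt M hr1
  have hC : (0 : ℝ) < 1 / ((c : ℝ) + 1) ^ M := by positivity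
  obtain ⟨k, hk1, hk2⟩ := ((hlim.eventually (gt_mem_nhds hC)).and
    (Filter.eventually_ge_atTop 1)).exists
  have h3 := key2 k hk2
  have hrk : 0 < r ^ k := by positivity
  rw [div_lt_div_iff₀ hrk (by positivity), one_mul] at hk1
  linarith [mul_comm ((k : ℝ) ^ M) (((c : ℝ) + 1) ^ M)]

section poly

open MvPolynomial

variable {K : Type*} [Field K] {ι : Type} [Fintype ι]

/-- restriction to a line -/
noncomputable def line (p z : ι → K) : MvPolynomial ι K →ₐ[K] Polynomial K :=
  aeval fun i => Polynomial.C (p i) + Polynomial.C (z i) * Polynomial.X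

lemma line_zero (p z : ι → K) (g : MvPolynomial ι K) : (line p z g).coeff 0 = eval p g := by
  rw [Polynomial.coeff_zero_eq_eval_zero]
  induction g using MvPolynomial.induction_on with
  | C a => simp [line]
  | add f g hf hg => rw [map_add, Polynomial.eval_add, hf, hg, map_add]
  | mul_X f i hf =>
    rw [map_mul, Polynomial.eval_mul, hf, map_mul]
    simp [line]

lemma line_one (p z : ι → K) (g : MvPolynomial ι K) :
    (line p z g).coeff 1 = ∑ i, z i * eval p (pderiv i g) := by
  classical
  induction g using MvPolynomial.induction_on with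
  | C a => simp [line, Polynomial.coeff_C]
  | add f g hf hg =>
    rw [map_add, Polynomial.coeff_add, hf, hg, ← sum_add_distrib]
    refine sum_congr rfl fun i _ => ?_
    rw [map_add, map_add]
    ring
  | mul_X f i hf =>
    have h1 : line p z (X i) = Polynomial.C (p i) + Polynomial.C (z i) * Polynomial.X := by
      simp [line]
    have h2 : (line p z (f * X i)).coeff 1 =
        (line p z f).coeff 1 * p i + (line p z f).coeff 0 * z i := by
      rw [map_mul, h1, mul_add, Polynomial.coeff_add, Polynomial.coeff_mul_C, ← mul_assoc,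
        show (1 : ℕ) = 0 + 1 from rfl, Polynomial.coeff_mul_X, Polynomial.coeff_mul_C]
    rw [h2, hf, line_zero]
    have h3 : ∀ j, z j * eval p (pderiv j (f * X i)) =
        z j * eval p (pderiv j f) * p i + (if j = i then eval p f * z i else 0) := by
      intro j
      rw [pderiv_mul, pderiv_X]
      by_cases h : j = i
      · subst h
        simp
        ring
      · rw [if_neg h, Pi.single_eq_of_ne (by exact fun h' => h h'.symm)]
        simp
        ring
    simp only [h3, sum_add_distrib, ← sum_mul]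
    simp

/-- interpolation -/
lemma exists_interp [DecidableEq (ι → K)] (T : Finset (ι → K)) (p : ι → K) :
    ∃ b : MvPolynomial ι K, ∀ p' ∈ T, eval p' b = if p' = p then 1 else 0 := by
  have h1 : ∀ p' : ι → K, ∃ f : MvPolynomial ι K, p' ≠ p → eval p f = 1 ∧ eval p' f = 0 := by
    intro p'
    by_cases h : p' = p
    · exact ⟨0, fun h' => absurd h h'⟩
    · obtain ⟨i, hi⟩ := Function.ne_iff.1 h
      refine ⟨C (p i - p' i)⁻¹ * (X i - C (p' i)), fun _ => ⟨?_, ?_⟩⟩
      · simp only [map_mul, map_sub, eval_C, eval_X]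
        exact inv_mul_cancel₀ (sub_ne_zero.2 fun h => hi h.symm)
      · simp
  choose f hf using h1
  refine ⟨∏ p' ∈ T.erase p, f p', fun p' hp' => ?_⟩
  rw [map_prod]
  by_cases h : p' = p
  · rw [if_pos h, h]
    refine prod_eq_one fun x hx => ?_
    exact (hf x (ne_of_mem_erase hx)).1
  · rw [if_neg h]
    exact prod_eq_zero (mem_erase.2 ⟨h, hp'⟩) (hf p' h).2

/-- all monomials have weighted degree at most `D` -/
def WD (w : ι → ℕ) (D : ℕ) (f : MvPolynomial ι K) : Prop := ∀ m ∈ f.support, ∑ i, m i * w i ≤ D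

lemma WD.mul {w : ι → ℕ} {D D' : ℕ} {f g : MvPolynomial ι K} (hf : WD w D f) (hg : WD w D' g) :
    WD w (D + D') (f * g) := by
  classical
  intro m hm
  obtain ⟨a, ha, b, hb, rfl⟩ := Finset.mem_add.1 (support_mul f g hm)
  have h1 := hf a ha
  have h2 := hg b hb
  simp only [Finsupp.coe_add, Pi.add_apply, add_mul, sum_add_distrib]
  exact add_le_add h1 h2

lemma WD.one {w : ι → ℕ} : WD w 0 (1 : MvPolynomial ι K) := by
  classical
  intro m hm
  have h1 : 0 = m := by
    by_contra h
    rw [mem_support_iff, coeff_one, if_neg h] at hm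
    exact hm rfl
  simp [← h1]

lemma WD.pow {w : ι → ℕ} {D : ℕ} {f : MvPolynomial ι K} (hf : WD w D f) (n : ℕ) :
    WD w (n * D) (f ^ n) := by
  induction n with
  | zero => simpa using WD.one
  | succ n ih =>
    rw [pow_succ, add_mul, one_mul]
    exact ih.mul hf

lemma WD.prod {κ : Type} {w : ι → ℕ} {s : Finset κ} {D : κ → ℕ} {f : κ → MvPolynomial ι K}
    (hf : ∀ j ∈ s, WD w (D j) (f j)) : WD w (∑ j ∈ s, D j) (∏ j ∈ s, f j) := by
  classical
  induction s using Finset.induction_on with
  | empty => simpa using WD.one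
  | insert j s hj ih =>
    rw [sum_insert hj, prod_insert hj]
    exact (hf j (mem_insert_self _ _)).mul (ih fun i hi => hf i (mem_insert_of_mem hi))

lemma WD.mono {w : ι → ℕ} {D D' : ℕ} {f : MvPolynomial ι K} (hf : WD w D f) (h : D ≤ D') :
    WD w D' f := fun m hm => (hf m hm).trans h

lemma exists_WD (w : ι → ℕ) (f : MvPolynomial ι K) : ∃ D, WD w D f :=
  ⟨∑ m ∈ f.support, ∑ i, m i * w i, fun m hm =>
    single_le_sum (f := fun m : ι →₀ ℕ => ∑ i, m i * w i) (fun _ _ => Nat.zero_le _) hm⟩

end poly

section main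

open MvPolynomial

variable {K : Type*} [Field K] [Infinite K] {ι κ : Type} [Fintype ι] [Fintype κ] [DecidableEq ι]
  [DecidableEq κ]

/-- independence over the polynomials in the `g j` -/
lemma indep (hcard : Fintype.card κ = Fintype.card ι) (g : κ → MvPolynomial ι K)
    (T : Finset (ι → K)) (hT : ∀ p ∈ T, ∀ j, eval p (g j) = 0)
    (hnd : ∀ p ∈ T, ∀ z : ι → K,
      (∀ j, ∑ i, z i * eval p (pderiv i (g j)) = 0) → z = 0)
    (b : (ι → K) → MvPolynomial ι K)
    (hb1 : ∀ p ∈ T, eval p (b p) = 1) (hb0 : ∀ p ∈ T, ∀ p' ∈ T, p' ≠ p → eval p' (b p) = 0)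
    (S : Finset (κ → ℕ)) (c : (ι → K) → (κ → ℕ) → K)
    (hc : ∑ p ∈ T, ∑ a ∈ S, C (c p a) * (b p * ∏ j, g j ^ a j) = 0) :
    ∀ p ∈ T, ∀ a ∈ S, c p a = 0 := by
  classical
  -- induction on the degree
  have key : ∀ r : ℕ, ∀ p ∈ T, ∀ a ∈ S, ∑ j, a j = r → c p a = 0 := by
    intro r
    induction r using Nat.strong_induction_on with
    | _ r ih =>
      intro p0 hp0
      -- the linear map
      set ℓ : (ι → K) →ₗ[K] (κ → K) :=
        { toFun := fun z j => ∑ i, z i * eval p0 (pderiv i (g j))
          map_add' := fun x y => by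
            funext j
            simp only [Pi.add_apply, add_mul, sum_add_distrib]
          map_smul' := fun t x => by
            funext j
            simp only [Pi.smul_apply, smul_eq_mul, RingHom.id_apply, mul_sum, mul_assoc] } with hℓ
      have hinj : Function.Injective ℓ := by
        rw [← LinearMap.ker_eq_bot, LinearMap.ker_eq_bot']
        intro z hz
        exact hnd p0 hp0 z fun j => congrFun hz j
      have hsurj : Function.Surjective ℓ :=
        (LinearMap.injective_iff_surjective_of_finrank_eq_finrank (by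
          rw [Module.finrank_fintype_fun_eq_card, Module.finrank_fintype_fun_eq_card,
            hcard])).1 hinj
      -- the equation for the leading forms
      have hz : ∀ z : ι → K, ∑ a ∈ S.filter (fun a => ∑ j, a j = r), c p0 a *
          ∏ j, (ℓ z j) ^ a j = 0 := by
        intro z
        have hgj : ∀ j, ∃ h : Polynomial K, line p0 z (g j) = Polynomial.X * h ∧
            h.coeff 0 = ℓ z j := by
          intro j
          have h0 : (line p0 z (g j)).coeff 0 = 0 := by rw [line_zero]; exact hT p0 hp0 j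
          obtain ⟨h, hh⟩ := Polynomial.X_dvd_iff.2 h0
          refine ⟨h, hh, ?_⟩
          have h1 := line_one p0 z (g j)
          rw [hh, mul_comm, show (1 : ℕ) = 0 + 1 from rfl, Polynomial.coeff_mul_X] at h1
          exact h1
        choose h hh h0 using hgj
        have h1 := congrArg (fun f => (line p0 z f).coeff r) hc
        simp only [map_sum, map_mul, map_prod, map_pow, map_zero, Polynomial.coeff_zero,
          Polynomial.finset_sum_coeff] at h1
        have h2 : ∀ p ∈ T, ∀ a ∈ S, (line p0 z (C (c p a)) *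
            (line p0 z (b p) * ∏ j, line p0 z (g j) ^ a j)).coeff r =
            if p = p0 ∧ ∑ j, a j = r then c p0 a * ∏ j, (ℓ z j) ^ a j else 0 := by
          intro p hp a ha
          have h3 : line p0 z (C (c p a)) = Polynomial.C (c p a) := by
            simp [line]
          have h4 : line p0 z (C (c p a)) * (line p0 z (b p) * ∏ j, line p0 z (g j) ^ a j) =
              (Polynomial.C (c p a) * (line p0 z (b p) * ∏ j, h j ^ a j)) *
                Polynomial.X ^ (∑ j, a j) := by
            rw [h3, ← prod_pow_eq_pow_sum]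
            simp only [hh, mul_pow, prod_mul_distrib]
            ring
          rw [h4, Polynomial.coeff_mul_X_pow']
          rcases lt_trichotomy (∑ j, a j) r with hlt | heq | hgt
          · rw [if_pos hlt.le, ih _ hlt p hp a ha rfl, if_neg (fun h => absurd h.2 hlt.ne)]
            simp
          · rw [if_pos heq.le, heq, Nat.sub_self, Polynomial.coeff_C_mul,
              Polynomial.mul_coeff_zero, line_zero,
              Polynomial.coeff_zero_eq_eval_zero, Polynomial.eval_prod]
            have h5 : ∀ j, Polynomial.eval 0 (h j ^ a j) = ℓ z j ^ a j := by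
              intro j
              rw [Polynomial.eval_pow, ← Polynomial.coeff_zero_eq_eval_zero, h0]
            simp only [h5]
            by_cases hpp : p = p0
            · rw [if_pos ⟨hpp, trivial⟩, hpp, hb1 p0 hp0, one_mul]
            · rw [if_neg (fun h => hpp h.1), hb0 p hp p0 hp0 (fun h => hpp h.symm)]
              simp
          · rw [if_neg (not_le.2 hgt), if_neg (fun h => absurd h.2 hgt.ne')]
        rw [sum_congr rfl fun p hp => sum_congr rfl fun a ha => h2 p hp a ha] at h1
        rw [sum_filter]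
        rw [sum_eq_single p0] at h1
        · simpa using h1
        · intro p _ hp
          refine sum_eq_zero fun a _ => ?_
          rw [if_neg (fun h => hp h.1)]
        · intro h
          exact absurd hp0 h
      -- the polynomial
      intro a ha har
      set P : MvPolynomial κ K := ∑ a ∈ S.filter (fun a => ∑ j, a j = r),
        monomial (Finsupp.equivFunOnFinite.symm a) (c p0 a) with hP
      have hP0 : P = 0 := by
        apply MvPolynomial.funext
        intro y
        obtain ⟨z, rfl⟩ := hsurj y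
        rw [hP, map_sum, map_zero, ← hz z]
        refine sum_congr rfl fun a _ => ?_
        rw [eval_monomial, Finsupp.prod_fintype _ _ (fun _ => pow_zero _)]
        rfl
      have h1 := congrArg (coeff (Finsupp.equivFunOnFinite.symm a)) hP0
      rw [hP, coeff_sum, coeff_zero, sum_eq_single a] at h1
      · simpa using h1
      · intro a' _ hne
        rw [coeff_monomial, if_neg]
        intro h
        exact hne (Finsupp.equivFunOnFinite.symm.injective h)
      · intro h
        exact absurd (mem_filter.2 ⟨ha, har⟩) h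
  intro p hp a ha
  exact key _ p hp a ha rfl

/-- The weighted Bezout inequality for nondegenerate zeros. -/
theorem weighted_bezout (hcard : Fintype.card κ = Fintype.card ι) (w : ι → ℕ)
    (hw : ∀ i, 1 ≤ w i) (d : κ → ℕ) (hd : ∀ j, 1 ≤ d j) (g : κ → MvPolynomial ι K)
    (hg : ∀ j, ∀ m ∈ (g j).support, ∑ i, m i * w i ≤ d j)
    (T : Finset (ι → K)) (hT : ∀ p ∈ T, ∀ j, MvPolynomial.eval p (g j) = 0)
    (hnd : ∀ p ∈ T, ∀ z : ι → K,
      (∀ j, ∑ i, z i * MvPolynomial.eval p (MvPolynomial.pderiv i (g j)) = 0) → z = 0) :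
    T.card * ∏ i, w i ≤ ∏ j, d j := by
  classical
  choose b hb using fun p => exists_interp T p
  choose B hB using fun p => exists_WD w (b p)
  set c := ∑ p ∈ T, B p with hc
  have hbc : ∀ p ∈ T, WD w c (b p) := fun p hp =>
    (hB p).mono (single_le_sum (f := B) (fun _ _ => Nat.zero_le _) hp)
  -- the count
  have hcount : ∀ D, T.card * (Sw d D).card ≤ (Sw w (D + c)).card := by
    intro D
    set s : Set (ι →₀ ℕ) := {m | ∑ i, m i * w i ≤ D + c} with hs
    have hmem : ∀ x : T × Sw d D, b x.1.1 * ∏ j, g j ^ x.2.1 j ∈ restrictSupport K s := by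
      rintro ⟨⟨p, hp⟩, ⟨a, ha⟩⟩
      rw [mem_restrictSupport_iff]
      intro m hm
      have h1 : WD w (∑ j, a j * d j) (∏ j, g j ^ a j) :=
        WD.prod fun j _ => WD.pow (hg j) (a j)
      have h2 := (hbc p hp).mul h1 m hm
      rw [mem_Sw hd] at ha
      change ∑ i, m i * w i ≤ D + c
      omega
    set v : T × Sw d D → restrictSupport K s := fun x => ⟨_, hmem x⟩ with hv
    have hli : LinearIndependent K v := by
      rw [Fintype.linearIndependent_iff]
      intro e he
      set e' : (ι → K) → (κ → ℕ) → K := fun p a =>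
        if h : p ∈ T ∧ a ∈ Sw d D then e (⟨p, h.1⟩, ⟨a, h.2⟩) else 0 with he'
      have h1 : ∑ p ∈ T, ∑ a ∈ Sw d D, C (e' p a) * (b p * ∏ j, g j ^ a j) = 0 := by
        have h2 := congrArg Subtype.val he
        rw [AddSubmonoidClass.coe_finset_sum] at h2
        rw [Fintype.sum_prod_type] at h2
        refine Eq.trans ?_ h2
        rw [← sum_coe_sort]
        refine sum_congr rfl fun p _ => ?_
        rw [← sum_coe_sort]
        refine sum_congr rfl fun a _ => ?_
        simp only [he', hv, Submodule.coe_smul, smul_eq_C_mul]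
        rw [dif_pos ⟨p.2, a.2⟩]
      have h2 := indep hcard g T hT hnd b (fun p hp => by rw [hb p p hp, if_pos rfl])
        (fun p _ p' hp' hne => by rw [hb p p' hp', if_neg hne]) (Sw d D) e' h1
      rintro ⟨⟨p, hp⟩, ⟨a, ha⟩⟩
      have h3 := h2 p hp a ha
      simp only [he'] at h3
      rwa [dif_pos ⟨hp, ha⟩] at h3
    have hfin : Finite s := by
      refine Set.Finite.to_subtype ?_
      refine Set.Finite.subset ((Sw w (D + c)).image
        (fun a => Finsupp.equivFunOnFinite.symm a)).finite_toSet ?_
      intro m hm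
      rw [mem_coe, mem_image]
      exact ⟨m, (mem_Sw hw).2 hm, Finsupp.equivFunOnFinite.symm_apply_apply m⟩
    haveI : Fintype s := Fintype.ofFinite s
    have hbasis := basisRestrictSupport K s
    haveI : Module.Finite K (restrictSupport K s) := Module.Finite.of_basis hbasis
    have h1 := hli.fintype_card_le_finrank
    rw [Module.finrank_eq_card_basis hbasis, Fintype.card_prod, Fintype.card_coe,
      Fintype.card_coe] at h1
    refine h1.trans ?_
    rw [← Fintype.card_coe]
    refine Fintype.card_le_of_injective (fun m => (⟨fun i => m.1 i, (mem_Sw hw).2 m.2⟩ :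
      Sw w (D + c))) ?_
    intro m m' h
    rw [Subtype.mk.injEq] at h
    exact Subtype.ext (Finsupp.ext fun i => congrFun h i)
  -- conclusion
  refine growth (N := fun D => (Sw (fun _ : κ => 1) D).card) (c := c + ∑ i, w i)
    (M := Fintype.card κ) Sw_zero Sw_le fun D => ?_
  obtain e := Fintype.equivOfCardEq hcard
  calc (T.card * ∏ i, w i) * (Sw (fun _ : κ => 1) D).card
      ≤ (T.card * ∏ i, w i) * ((Sw d D).card * ∏ j, d j) := Nat.mul_le_mul_left _ (Sw_lower hd D)
    _ = (∏ j, d j) * ((T.card * (Sw d D).card) * ∏ i, w i) := by ring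
    _ ≤ (∏ j, d j) * ((Sw w (D + c)).card * ∏ i, w i) :=
        Nat.mul_le_mul_left _ (Nat.mul_le_mul_right _ (hcount D))
    _ ≤ (∏ j, d j) * (Sw (fun _ : ι => 1) (D + c + ∑ i, w i)).card :=
        Nat.mul_le_mul_left _ (Sw_upper hw _)
    _ ≤ (∏ j, d j) * (Sw (fun _ : κ => 1) (D + (c + ∑ i, w i))).card := by
        rw [add_assoc]
        exact Nat.mul_le_mul_left _ (Sw_transport e _)

end main

end Pool.Agent.L5helper18.DC
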