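import Mathlib

/-!
# Nondegenerate critical points survive a coefficientwise limit
-/

set_option autoImplicit false

open MvPolynomial Filter Topology

namespace Pool.Agent.L5helper18.DC

/-- the derivative of a polynomial function at a point -/
noncomputable def dP {τ : Type} [Fintype τ] (P : MvPolynomial τ ℂ) (x : τ → ℂ) :
    (τ → ℂ) →L[ℂ] ℂ :=
  ∑ i, eval x (pderiv i P) • ContinuousLinearMap.proj (R := ℂ) (φ := fun _ : τ => ℂ) i

lemma dP_apply {τ : Type} [Fintype τ] (P : MvPolynomial τ ℂ) (x v : τ → ℂ) :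
    dP P x v = ∑ i, eval x (pderiv i P) * v i := by
  simp [dP]

lemma hasStrictFDerivAt_eval {τ : Type} [Fintype τ] (P : MvPolynomial τ ℂ) (x : τ → ℂ) :
    HasStrictFDerivAt (fun y => eval y P) (dP P x) x := by
  classical
  induction P using MvPolynomial.induction_on with
  | C a =>
    have h : dP (C a) x = 0 := by
      ext v; simp [dP_apply]
    simp only [eval_C]
    rw [h]
    exact hasStrictFDerivAt_const _ _
  | add p q hp hq =>
    have h : dP (p + q) x = dP p x + dP q x := by
      apply ContinuousLinearMap.ext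
      intro v
      rw [_root_.add_apply, dP_apply, dP_apply, dP_apply, ← Finset.sum_add_distrib]
      exact Finset.sum_congr rfl fun i _ => by rw [map_add, map_add, add_mul]
    simp only [map_add]
    rw [h]
    exact hp.add hq
  | mul_X p i hp =>
    have h1 : HasStrictFDerivAt (fun y : τ → ℂ => y i)
        (ContinuousLinearMap.proj (R := ℂ) (φ := fun _ : τ => ℂ) i) x :=
      (ContinuousLinearMap.proj (R := ℂ) (φ := fun _ : τ => ℂ) i).hasStrictFDerivAt
    have h2 := hp.mul h1
    simp only [map_mul, eval_X]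
    refine h2.congr_fderiv ?_
    apply ContinuousLinearMap.ext
    intro v
    rw [dP_apply, _root_.add_apply, _root_.smul_apply,
      _root_.smul_apply, dP_apply, ContinuousLinearMap.proj_apply]
    have h3 : ∀ j, eval x (pderiv j (p * X i)) * v j =
        x i * (eval x (pderiv j p) * v j) + eval x p * (if j = i then v i else 0) := by
      intro j
      rw [Derivation.leibniz, pderiv_X, map_add, smul_eq_mul, smul_eq_mul, map_mul, map_mul, eval_X]
      by_cases hji : j = i
      · subst hji
        simp only [Pi.single_eq_same, map_one, if_true]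
        ring
      · rw [Pi.single_eq_of_ne (Ne.symm hji), map_zero, if_neg hji]
        ring
    rw [Finset.sum_congr rfl fun j _ => h3 j, Finset.sum_add_distrib, ← Finset.mul_sum,
      ← Finset.mul_sum, Finset.sum_ite_eq' Finset.univ i fun _ => v i,
      if_pos (Finset.mem_univ i), smul_eq_mul, smul_eq_mul]
    ring

lemma continuous_evalP {τ : Type} [Fintype τ] (P : MvPolynomial τ ℂ) :
    Continuous fun y : τ → ℂ => eval y P :=
  MvPolynomial.continuous_eval P

/-- Zeros of a square polynomial system with parameters survive a small change of the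
parameters. -/
lemma zero_persists {s ι o : Type} [Fintype s] [Fintype ι] [Fintype o]
    (hcard : Fintype.card ι = Fintype.card o) (Q : o → MvPolynomial (s ⊕ ι) ℂ)
    (c : ℕ → s → ℂ) (c0 : s → ℂ) (hc : Tendsto c atTop (𝓝 c0)) (p0 : ι → ℂ)
    (h0 : ∀ j, eval (Sum.elim c0 p0) (Q j) = 0)
    (hnd : ∀ z : ι → ℂ,
      (∀ j, ∑ i, z i * eval (Sum.elim c0 p0) (pderiv (Sum.inr i) (Q j)) = 0) → z = 0)
    (U : Set (ι → ℂ)) (hU : U ∈ 𝓝 p0) :
    ∀ᶠ k in atTop, ∃ p ∈ U, (∀ j, eval (Sum.elim (c k) p) (Q j) = 0) ∧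
      ∀ z : ι → ℂ,
        (∀ j, ∑ i, z i * eval (Sum.elim (c k) p) (pderiv (Sum.inr i) (Q j)) = 0) → z = 0 := by
  classical
  set x0 : s ⊕ ι → ℂ := Sum.elim c0 p0 with hx0
  obtain ⟨e⟩ : Nonempty (ι ≃ o) := Fintype.card_eq.1 hcard
  set N : (s ⊕ ι → ℂ) → Matrix o o ℂ := fun x =>
    Matrix.of fun j i => eval x (pderiv (Sum.inr (e.symm i)) (Q j)) with hN
  have hmul : ∀ (x : s ⊕ ι → ℂ) (z : ι → ℂ) (j : o),
      ∑ i, z i * eval x (pderiv (Sum.inr i) (Q j)) = ((N x).mulVec fun i => z (e.symm i)) j := by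
    intro x z j
    rw [Matrix.mulVec, dotProduct, ← e.sum_comp]
    refine Finset.sum_congr rfl fun i _ => ?_
    simp only [hN, Matrix.of_apply, Equiv.symm_apply_apply]
    ring
  have hdet0 : (N x0).det ≠ 0 := by
    intro h
    obtain ⟨v, hv, hv0⟩ := Matrix.exists_mulVec_eq_zero_iff.2 h
    apply hv
    have h1 := hnd (fun i => v (e i)) fun j => by
      rw [hmul]
      simp only [Equiv.apply_symm_apply]
      rw [hv0]
      rfl
    funext j
    have := congrFun h1 (e.symm j)
    simpa using this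
  have hcont : Continuous fun x => (N x).det := by
    apply Continuous.matrix_det
    apply continuous_matrix
    intro i j
    exact continuous_evalP _
  set f : (s ⊕ ι → ℂ) → (s → ℂ) × (o → ℂ) := fun x =>
    (fun a => x (Sum.inl a), fun j => eval x (Q j)) with hf
  set L : (s ⊕ ι → ℂ) →L[ℂ] (s → ℂ) × (o → ℂ) :=
    (ContinuousLinearMap.pi fun a =>
      ContinuousLinearMap.proj (R := ℂ) (φ := fun _ : s ⊕ ι => ℂ) (Sum.inl a)).prod
      (ContinuousLinearMap.pi fun j => dP (Q j) x0) with hL
  have hfL : HasStrictFDerivAt f L x0 := by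
    apply HasStrictFDerivAt.prodMk
    · apply hasStrictFDerivAt_pi.2
      intro a
      exact (ContinuousLinearMap.proj (R := ℂ) (φ := fun _ : s ⊕ ι => ℂ)
        (Sum.inl a)).hasStrictFDerivAt
    · apply hasStrictFDerivAt_pi.2
      intro j
      exact hasStrictFDerivAt_eval (Q j) x0
  have hinj : Function.Injective L := by
    rw [injective_iff_map_eq_zero]
    intro v hv
    have h1 : ∀ a, v (Sum.inl a) = 0 := by
      intro a
      have := congrFun (congrArg Prod.fst hv) a
      simpa [hL] using this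
    have h2 : (fun i => v (Sum.inr i)) = 0 := by
      apply hnd
      intro j
      have h3 : dP (Q j) x0 v = 0 := by
        have := congrFun (congrArg Prod.snd hv) j
        simpa [hL] using this
      rw [dP_apply, Fintype.sum_sum_type] at h3
      simp only [h1, mul_zero, Finset.sum_const_zero, zero_add] at h3
      rw [← h3]
      exact Finset.sum_congr rfl fun i _ => mul_comm _ _
    funext t
    rcases t with a | i
    · exact h1 a
    · exact congrFun h2 i
  have hsurj : Function.Surjective L := by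
    have hfin : Module.finrank ℂ (s ⊕ ι → ℂ) = Module.finrank ℂ ((s → ℂ) × (o → ℂ)) := by
      rw [Module.finrank_prod, Module.finrank_fintype_fun_eq_card,
        Module.finrank_fintype_fun_eq_card, Module.finrank_fintype_fun_eq_card,
        Fintype.card_sum, hcard]
    exact (LinearMap.injective_iff_surjective_of_finrank_eq_finrank
      (f := (L : (s ⊕ ι → ℂ) →ₗ[ℂ] (s → ℂ) × (o → ℂ))) hfin).1 hinj
  have hmap := hfL.map_nhds_eq_of_surj (LinearMap.range_eq_top.2 hsurj)
  have hfx0 : f x0 = (c0, 0) := by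
    simp only [hf, hx0, Sum.elim_inl]
    congr 1
    funext j
    exact h0 j
  rw [hfx0] at hmap
  set W : Set (s ⊕ ι → ℂ) := {x | (fun i => x (Sum.inr i)) ∈ U ∧ (N x).det ≠ 0} with hW
  have hWn : W ∈ 𝓝 x0 := by
    apply Filter.inter_mem
    · have h1 : Continuous fun x : s ⊕ ι → ℂ => fun i => x (Sum.inr i) :=
        continuous_pi fun i => continuous_apply _
      apply h1.continuousAt
      simpa [hx0] using hU
    · exact hcont.continuousAt.eventually_ne hdet0
  have hWf : f '' W ∈ 𝓝 ((c0, 0) : (s → ℂ) × (o → ℂ)) := by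
    rw [← hmap]
    exact Filter.image_mem_map hWn
  have hck : Tendsto (fun k => ((c k, 0) : (s → ℂ) × (o → ℂ))) atTop (𝓝 (c0, 0)) :=
    hc.prodMk_nhds tendsto_const_nhds
  filter_upwards [hck.eventually hWf] with k hk
  obtain ⟨x, hx, hxk⟩ := hk
  have hx1 : ∀ a, x (Sum.inl a) = c k a := fun a => congrFun (congrArg Prod.fst hxk) a
  have hx2 : ∀ j, eval x (Q j) = 0 := fun j => congrFun (congrArg Prod.snd hxk) j
  have hxe : Sum.elim (c k) (fun i => x (Sum.inr i)) = x := by
    funext t
    rcases t with a | i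
    · exact (hx1 a).symm
    · rfl
  refine ⟨fun i => x (Sum.inr i), hx.1, ?_, ?_⟩
  · intro j
    rw [hxe]
    exact hx2 j
  · intro z hz
    rw [hxe] at hz
    have h1 : (N x).mulVec (fun i => z (e.symm i)) = 0 := by
      funext j
      rw [← hmul]
      exact hz j
    have h2 := Matrix.eq_zero_of_mulVec_eq_zero hx.2 h1
    funext i
    have := congrFun h2 (e i)
    simpa using this

/-- Specialisation of the first block of variables. -/
noncomputable def spec {s ι : Type} (c : s → ℂ) :
    MvPolynomial (s ⊕ ι) ℂ →ₐ[ℂ] MvPolynomial ι ℂ :=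
  aeval (Sum.elim (fun a => C (c a)) X)

lemma eval_spec {s ι : Type} (c : s → ℂ) (p : ι → ℂ) (P : MvPolynomial (s ⊕ ι) ℂ) :
    eval p (spec c P) = eval (Sum.elim c p) P := by
  induction P using MvPolynomial.induction_on with
  | C a => simp [spec]
  | add f g hf hg => rw [map_add, map_add, map_add, hf, hg]
  | mul_X f t hf =>
    rw [map_mul, map_mul, map_mul, hf, eval_X]
    rcases t with a | i
    · simp [spec]
    · simp [spec]

lemma pderiv_spec {s ι : Type} [DecidableEq s] [DecidableEq ι] (c : s → ℂ) (i : ι)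
    (P : MvPolynomial (s ⊕ ι) ℂ) :
    pderiv i (spec c P) = spec c (pderiv (Sum.inr i) P) := by
  induction P using MvPolynomial.induction_on with
  | C a => simp [spec]
  | add f g hf hg => rw [map_add, map_add, map_add, map_add, hf, hg]
  | mul_X f t hf =>
    rw [map_mul, Derivation.leibniz, Derivation.leibniz, map_add, hf, pderiv_X, smul_eq_mul,
      smul_eq_mul, smul_eq_mul, smul_eq_mul, map_mul, map_mul]
    rcases t with a | j
    · simp [spec]
    · simp only [spec, aeval_X, Sum.elim_inr, pderiv_X, Pi.single_apply]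
      by_cases h : i = j
      · subst h
        simp
      · rw [if_neg (fun hh => h hh.symm), if_neg (fun hh => h (Sum.inr_injective hh).symm)]
        simp

/-- Nondegenerate critical points survive a coefficientwise limit of polynomials of bounded
degree. -/
theorem persist {ι κ : Type} [Fintype ι] [Fintype κ] [DecidableEq ι] [DecidableEq κ]
    (hcard : Fintype.card ι = Fintype.card κ + 1) (F : MvPolynomial ι ℂ)
    (Fk : ℕ → MvPolynomial ι ℂ) (D : ℕ) (hdeg : ∀ k, (Fk k).totalDegree ≤ D)
    (hlim : ∀ m, Filter.Tendsto (fun k => coeff m (Fk k)) Filter.atTop (nhds (coeff m F)))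
    (w : κ → ι → ℂ) (S : Finset (ι → ℂ)) (h0 : ∀ p ∈ S, eval p F = 0)
    (h1 : ∀ p ∈ S, ∀ e, ∑ i, w e i * eval p (pderiv i F) = 0)
    (hnd : ∀ p ∈ S, ∀ z : ι → ℂ, ∑ i, z i * eval p (pderiv i F) = 0 →
      (∀ e, ∑ i, ∑ j, z j * w e i * eval p (pderiv j (pderiv i F)) = 0) → z = 0) :
    ∃ k, ∃ S' : Finset (ι → ℂ), S'.card = S.card ∧ (∀ p ∈ S', eval p (Fk k) = 0) ∧
      (∀ p ∈ S', ∀ e, ∑ i, w e i * eval p (pderiv i (Fk k)) = 0) ∧
      (∀ p ∈ S', ∀ z : ι → ℂ, ∑ i, z i * eval p (pderiv i (Fk k)) = 0 →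
        (∀ e, ∑ i, ∑ j, z j * w e i * eval p (pderiv j (pderiv i (Fk k))) = 0) → z = 0) := by
  classical
  -- the exponents that occur
  set E : Finset (ι →₀ ℕ) := (Finsupp.finite_of_degree_le (σ := ι) D).toFinset with hE
  have hsupp : ∀ (G : MvPolynomial ι ℂ), G.totalDegree ≤ D → ∀ m, m ∉ E → coeff m G = 0 := by
    intro G hG m hm
    apply coeff_eq_zero_of_totalDegree_lt
    refine lt_of_le_of_lt hG ?_
    have h2 : ¬ Finsupp.degree m ≤ D := by
      intro h
      exact hm (by rw [hE, Set.Finite.mem_toFinset]; exact h)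
    have h3 := not_le.1 h2
    rwa [Finsupp.degree_apply] at h3
  have hF : ∀ m, m ∉ E → coeff m F = 0 := by
    intro m hm
    have h2 := hlim m
    have h3 : (fun k => coeff m (Fk k)) = fun _ => 0 := funext fun k => hsupp _ (hdeg k) m hm
    rw [h3] at h2
    exact tendsto_nhds_unique h2 tendsto_const_nhds
  -- the generic polynomial
  set P : MvPolynomial (E ⊕ ι) ℂ :=
    ∑ m : E, X (Sum.inl m) * rename Sum.inr (monomial m.1 (1 : ℂ)) with hP
  have hspec : ∀ (G : MvPolynomial ι ℂ), (∀ m, m ∉ E → coeff m G = 0) →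
      spec (fun m : E => coeff m.1 G) P = G := by
    intro G hG
    have h2 : spec (fun m : E => coeff m.1 G) P = ∑ m : E, monomial m.1 (coeff m.1 G) := by
      rw [hP, map_sum]
      refine Finset.sum_congr rfl fun m _ => ?_
      rw [map_mul, spec, aeval_X, Sum.elim_inl, aeval_rename]
      have h3 : (Sum.elim (fun a : E => C (coeff a.1 G)) X ∘ Sum.inr : ι → MvPolynomial ι ℂ) = X := by
        funext i; rfl
      rw [h3, aeval_X_left, AlgHom.id_apply, C_mul_monomial, mul_one]
    rw [h2]
    ext d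
    rw [coeff_sum]
    simp only [coeff_monomial]
    by_cases hd : d ∈ E
    · rw [Finset.sum_eq_single (⟨d, hd⟩ : E)]
      · simp
      · intro b _ hb
        rw [if_neg]
        intro h
        exact hb (Subtype.ext h)
      · intro h; exact absurd (Finset.mem_univ _) h
    · rw [hG d hd]
      apply Finset.sum_eq_zero
      intro b _
      rw [if_neg]
      intro h
      exact hd (h ▸ b.2)
  -- the system
  set Q : Option κ → MvPolynomial (E ⊕ ι) ℂ := fun o =>
    match o with
    | none => P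
    | some e => ∑ i, C (w e i) * pderiv (Sum.inr i) P with hQ
  have hQ0 : ∀ (G : MvPolynomial ι ℂ), (∀ m, m ∉ E → coeff m G = 0) → ∀ p : ι → ℂ,
      eval (Sum.elim (fun m : E => coeff m.1 G) p) (Q none) = eval p G := by
    intro G hG p
    rw [← eval_spec]
    simp only [hQ]
    rw [hspec G hG]
  have hQ1 : ∀ (G : MvPolynomial ι ℂ), (∀ m, m ∉ E → coeff m G = 0) → ∀ (p : ι → ℂ) (e : κ),
      eval (Sum.elim (fun m : E => coeff m.1 G) p) (Q (some e)) =
        ∑ i, w e i * eval p (pderiv i G) := by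
    intro G hG p e
    rw [← eval_spec]
    simp only [hQ]
    rw [map_sum, map_sum]
    refine Finset.sum_congr rfl fun i _ => ?_
    rw [map_mul, ← pderiv_spec, hspec G hG, map_mul]
    simp [spec]
  have hD0 : ∀ (G : MvPolynomial ι ℂ), (∀ m, m ∉ E → coeff m G = 0) → ∀ (p : ι → ℂ) (i : ι),
      eval (Sum.elim (fun m : E => coeff m.1 G) p) (pderiv (Sum.inr i) (Q none)) =
        eval p (pderiv i G) := by
    intro G hG p i
    rw [← eval_spec, ← pderiv_spec]
    simp only [hQ]
    rw [hspec G hG]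
  have hD1 : ∀ (G : MvPolynomial ι ℂ), (∀ m, m ∉ E → coeff m G = 0) → ∀ (p : ι → ℂ) (e : κ)
      (j : ι), eval (Sum.elim (fun m : E => coeff m.1 G) p) (pderiv (Sum.inr j) (Q (some e))) =
        ∑ i, w e i * eval p (pderiv j (pderiv i G)) := by
    intro G hG p e j
    rw [← eval_spec, ← pderiv_spec]
    simp only [hQ]
    rw [map_sum, map_sum, map_sum]
    refine Finset.sum_congr rfl fun i _ => ?_
    rw [map_mul, ← pderiv_spec, hspec G hG]
    have h2 : spec (fun m : E => coeff m.1 G) (C (w e i) : MvPolynomial (E ⊕ ι) ℂ) =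
        (C (w e i) : MvPolynomial ι ℂ) := by simp [spec]
    rw [h2, Derivation.leibniz, pderiv_C, smul_zero, add_zero, smul_eq_mul, map_mul, eval_C]
  -- the two forms of nondegeneracy
  have hiff : ∀ (G : MvPolynomial ι ℂ), (∀ m, m ∉ E → coeff m G = 0) → ∀ (p z : ι → ℂ),
      (∀ o, ∑ i, z i * eval (Sum.elim (fun m : E => coeff m.1 G) p)
        (pderiv (Sum.inr i) (Q o)) = 0) ↔
      (∑ i, z i * eval p (pderiv i G) = 0 ∧
        ∀ e, ∑ i, ∑ j, z j * w e i * eval p (pderiv j (pderiv i G)) = 0) := by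
    intro G hG p z
    have h2 : ∀ e, ∑ j, z j * eval (Sum.elim (fun m : E => coeff m.1 G) p)
        (pderiv (Sum.inr j) (Q (some e))) =
        ∑ i, ∑ j, z j * w e i * eval p (pderiv j (pderiv i G)) := by
      intro e
      rw [Finset.sum_comm]
      refine Finset.sum_congr rfl fun j _ => ?_
      rw [hD1 G hG, Finset.mul_sum]
      exact Finset.sum_congr rfl fun i _ => by ring
    constructor
    · intro h
      refine ⟨?_, fun e => ?_⟩
      · rw [← h none]
        exact Finset.sum_congr rfl fun i _ => by rw [hD0 G hG]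
      · rw [← h2 e]
        exact h (some e)
    · rintro ⟨ha, hb⟩ o
      rcases o with _ | e
      · rw [← ha]
        exact Finset.sum_congr rfl fun i _ => by rw [hD0 G hG]
      · rw [h2 e]
        exact hb e
  obtain ⟨U, hU1, hU2⟩ := S.finite_toSet.t2_separation
  have hFk : ∀ k, ∀ m, m ∉ E → coeff m (Fk k) = 0 := fun k => hsupp _ (hdeg k)
  have hev : ∀ᶠ k in atTop, ∀ p ∈ S, ∃ p' ∈ U p,
      (∀ o, eval (Sum.elim (fun m : E => coeff m.1 (Fk k)) p') (Q o) = 0) ∧
      ∀ z : ι → ℂ, (∀ o, ∑ i, z i * eval (Sum.elim (fun m : E => coeff m.1 (Fk k)) p')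
        (pderiv (Sum.inr i) (Q o)) = 0) → z = 0 := by
    rw [Filter.eventually_all_finset]
    intro p hp
    refine zero_persists (by rw [hcard, Fintype.card_option]) Q
      (fun k => fun m : E => coeff m.1 (Fk k)) (fun m : E => coeff m.1 F)
      (tendsto_pi_nhds.2 fun m => hlim m.1) p ?_ ?_ (U p) ((hU1 p).2.mem_nhds (hU1 p).1)
    · intro o
      rcases o with _ | e
      · rw [hQ0 F hF]; exact h0 p hp
      · rw [hQ1 F hF]; exact h1 p hp e
    · intro z hz
      have h2 := (hiff F hF p z).1 hz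
      exact hnd p hp z h2.1 h2.2
  obtain ⟨k, hk⟩ := hev.exists
  choose! g hg1 hg2 hg3 using hk
  refine ⟨k, S.image g, ?_, ?_, ?_, ?_⟩
  · apply Finset.card_image_of_injOn
    intro p hp p' hp' hpp
    by_contra hne
    have h2 := hU2 hp hp' hne
    exact Set.disjoint_left.1 h2 (hg1 p hp) (by rw [hpp]; exact hg1 p' hp')
  · intro p hp
    obtain ⟨q, hq, rfl⟩ := Finset.mem_image.1 hp
    rw [← hQ0 (Fk k) (hFk k)]
    exact hg2 q hq none
  · intro p hp e
    obtain ⟨q, hq, rfl⟩ := Finset.mem_image.1 hp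
    rw [← hQ1 (Fk k) (hFk k)]
    exact hg2 q hq (some e)
  · intro p hp z hz1 hz2
    obtain ⟨q, hq, rfl⟩ := Finset.mem_image.1 hp
    exact hg3 q hq z ((hiff (Fk k) (hFk k) (g q) z).2 ⟨hz1, hz2⟩)

end Pool.Agent.L5helper18.DC
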